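import Pool.Agent.Helper10.BD.Goals
import Pool.Agent.Helper85.BC.CAP

/-!
# Project BD: `G_PRC`
-/

open scoped ContDiff
open Real Filter Topology

namespace Pool.Agent.Helper14.BD.PRC

open Pool.Agent.Helper50.BC (E)
open Pool.Agent.Helper85.BC (N2 N2_smooth N2_pos)
open Pool.Agent.Helper10.BD

/-- normalisation of a function with regular zero set -/
theorem nrm {q : ℕ} (h : E q → ℝ) (hh : ContDiff ℝ ∞ h)
    (hreg : ∀ w, h w = 0 → fderiv ℝ h w ≠ 0) :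
    ∃ b n : E q → ℝ, ContDiff ℝ ∞ b ∧ ContDiff ℝ ∞ n ∧ (∀ w, 0 < n w) ∧
      (∀ w, b w * n w = h w) ∧ ∀ w, h w = 0 → ‖fderiv ℝ b w‖ = 1 := by
  have hNs := N2_smooth h hh
  have hNp := N2_pos h hreg
  set n : E q → ℝ := fun w ↦ √(N2 h w) with hn
  have hnp : ∀ w, 0 < n w := fun w ↦ Real.sqrt_pos.2 (hNp w)
  have hns : ContDiff ℝ ∞ n := hNs.sqrt (fun w ↦ (hNp w).ne')
  set u : E q → ℝ := fun w ↦ h w / n w with hu
  have hus : ContDiff ℝ ∞ u := hh.div hns (fun w ↦ (hnp w).ne')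
  refine ⟨u, n, hus, hns, hnp, ?_, ?_⟩
  · intro w
    have := (hnp w).ne'
    simp only [hu]
    field_simp
  · intro w h1
    have h2 : HasFDerivAt (fun w ↦ h w * (n w)⁻¹) ((n w)⁻¹ • fderiv ℝ h w) w := by
      have a1 : HasFDerivAt h (fderiv ℝ h w) w := ((hh.differentiable (by simp)) w).hasFDerivAt
      have hni : ContDiff ℝ ∞ (fun w ↦ (n w)⁻¹) := hns.inv (fun w ↦ (hnp w).ne')
      have a2 : HasFDerivAt (fun w ↦ (n w)⁻¹) (fderiv ℝ (fun w ↦ (n w)⁻¹) w) w :=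
        ((hni.differentiable (by simp)) w).hasFDerivAt
      refine (a1.mul a2).congr_fderiv ?_
      rw [h1, zero_smul, zero_add]
    have h3 : u = fun w ↦ h w * (n w)⁻¹ := by
      funext z
      simp only [hu]
      rw [div_eq_mul_inv]
    rw [h3, h2.fderiv, norm_smul]
    have h4 : n w = ‖fderiv ℝ h w‖ := by
      simp only [hn]
      unfold N2
      rw [h1]
      simp
    rw [h4, norm_inv, norm_norm]
    have := norm_pos_iff.2 (hreg w h1)
    field_simp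

/-- near the zero set of `F` the function `G` is close to one -/
theorem near {q : ℕ} (K : Set (E q)) (hK : IsCompact K) (F G : E q → ℝ) (hF : Continuous F)
    (hG : Continuous G) (hF0 : ∀ w ∈ K, 0 ≤ F w) (hFG : ∀ w ∈ K, F w = 0 → G w = 1) :
    ∃ d : ℝ, 0 < d ∧ ∀ w ∈ K, F w ≤ d → 99 / 100 ≤ G w ∧ G w ≤ 101 / 100 := by
  have hA : IsCompact (K ∩ {w | 1 / 100 ≤ |G w - 1|}) := by
    apply hK.inter_right
    exact isClosed_le continuous_const ((hG.sub continuous_const).abs)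
  rcases Set.eq_empty_or_nonempty (K ∩ {w | 1 / 100 ≤ |G w - 1|}) with hE | hE
  · refine ⟨1, one_pos, fun w hw _ ↦ ?_⟩
    have hlt : |G w - 1| < 1 / 100 := by
      by_contra hcon
      have : w ∈ (K ∩ {w | 1 / 100 ≤ |G w - 1|}) := ⟨hw, not_lt.1 hcon⟩
      rw [hE] at this
      exact this
    have := abs_lt.1 hlt
    constructor
    · linarith [this.1]
    · linarith [this.2]
  · obtain ⟨w₀, hw₀, hmin⟩ := hA.exists_isMinOn hE hF.continuousOn
    have hpos : 0 < F w₀ := by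
      rcases lt_or_eq_of_le (hF0 w₀ hw₀.1) with h1 | h1
      · exact h1
      · exfalso
        have h2 := hFG w₀ hw₀.1 h1.symm
        have h3 : 1 / 100 ≤ |G w₀ - 1| := hw₀.2
        rw [h2] at h3
        norm_num at h3
    refine ⟨F w₀ / 2, by positivity, ?_⟩
    intro w hw hle
    have hlt : |G w - 1| < 1 / 100 := by
      by_contra hcon
      have h1 : w ∈ (K ∩ {w | 1 / 100 ≤ |G w - 1|}) := ⟨hw, not_lt.1 hcon⟩
      have h2 : F w₀ ≤ F w := hmin h1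
      linarith
    have := abs_lt.1 hlt
    constructor
    · linarith [this.1]
    · linarith [this.2]

/-- a positive continuous function on a compact set is bounded below -/
theorem pmin {q : ℕ} (K : Set (E q)) (hK : IsCompact K) (F : E q → ℝ) (hF : Continuous F)
    (hF0 : ∀ w ∈ K, 0 < F w) : ∃ d : ℝ, 0 < d ∧ ∀ w ∈ K, d < F w := by
  rcases Set.eq_empty_or_nonempty K with hE | hE
  · refine ⟨1, one_pos, fun w hw ↦ ?_⟩
    rw [hE] at hw
    exact absurd hw (Set.notMem_empty w)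
  · obtain ⟨w₀, hw₀, hmin⟩ := hK.exists_isMinOn hE hF.continuousOn
    have h1 := hF0 w₀ hw₀
    refine ⟨F w₀ / 2, by positivity, fun w hw ↦ ?_⟩
    have h2 : F w₀ ≤ F w := hmin hw
    linarith

theorem texp (t : ℝ) : t * exp (-t) ≤ 1 := by
  have h1 : t ≤ exp t := by linarith [Real.add_one_le_exp t]
  have h2 : exp t * exp (-t) = 1 := by rw [← Real.exp_add]; simp
  calc t * exp (-t) ≤ exp t * exp (-t) := mul_le_mul_of_nonneg_right h1 (exp_pos _).le
    _ = 1 := h2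

theorem aexp (A t : ℝ) (h : 2 * A ≤ t) : A * exp (-t) ≤ 1 / 2 := by
  have h1 := texp t
  have h2 : 2 * A * exp (-t) ≤ t * exp (-t) := mul_le_mul_of_nonneg_right h (exp_pos _).le
  linarith

theorem eE (A l d s : ℝ) (hl : 0 < l) (hd : 2 * A ≤ 23 / 2 * (l * d)) (hs : d ≤ s) :
    A * EE0 l s ≤ 1 := by
  unfold EE0
  have h1 : l * d ≤ l * s := mul_le_mul_of_nonneg_left hs hl.le
  have := aexp A (23 / 2 * (l * s)) (by linarith)
  linarith

theorem eF (A l d s : ℝ) (hA : 0 ≤ A) (hl : 0 < l) (hd0 : 0 < d)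
    (hd : 2 * A ≤ 23 / 2 * (l * d)) (hs : s ≤ -d) : A * FF1 l s ≤ 1 := by
  unfold FF1
  have h1 : l * s ≤ l * (-d) := mul_le_mul_of_nonneg_left hs hl.le
  have hld : 0 < l * d := mul_pos hl hd0
  have h2 := aexp A (-(32 * (l * s))) (by linarith)
  rw [neg_neg] at h2
  have h3 : (1 + 2 / 3 * exp (-(32 * (l * s))))⁻¹ ≤ 3 / 2 * exp (32 * (l * s)) := by
    have hp : 0 < exp (-(32 * (l * s))) := exp_pos _
    have hm : exp (32 * (l * s)) * exp (-(32 * (l * s))) = 1 := by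
      rw [← Real.exp_add]; simp
    have hq : 0 < exp (32 * (l * s)) := exp_pos _
    rw [inv_le_iff_one_le_mul₀ (by positivity)]
    nlinarith
  have h4 := mul_le_mul_of_nonneg_left h3 hA
  linarith

theorem eG (A l d s : ℝ) (hA : 0 ≤ A) (hl : 0 < l) (hd0 : 0 < d)
    (hd : 2 * A ≤ 23 / 2 * (l * d)) (hs : d ≤ s) : A * (1 - FF1 l s) ≤ 1 := by
  unfold FF1
  have h1 : l * d ≤ l * s := mul_le_mul_of_nonneg_left hs hl.le
  have hld : 0 < l * d := mul_pos hl hd0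
  have h2 := aexp A (32 * (l * s)) (by linarith)
  have h3 : 1 - (1 + 2 / 3 * exp (-(32 * (l * s))))⁻¹ ≤ 2 / 3 * exp (-(32 * (l * s))) := by
    have hp : 0 < exp (-(32 * (l * s))) := exp_pos _
    have h5 : 1 - 2 / 3 * exp (-(32 * (l * s))) ≤ (1 + 2 / 3 * exp (-(32 * (l * s))))⁻¹ := by
      rw [← one_div, le_div_iff₀ (by positivity)]
      nlinarith
    linarith
  have h4 := mul_le_mul_of_nonneg_left h3 hA
  linarith

theorem t : Pool.Agent.Helper10.BD.G_PRC := by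
  intro q u hu hK hreg
  obtain ⟨b0, N0, hb0, hN0, hN0p, hbn0, hz0⟩ := nrm u hu (fun w hw ↦ hreg w (Or.inl hw))
  have hfd : ∀ w, fderiv ℝ (fun x ↦ u x - 1) w = fderiv ℝ u w := by
    intro w
    exact fderiv_sub_const 1
  obtain ⟨b1, N1, hb1, hN1, hN1p, hbn1, hz1⟩ := nrm (fun x ↦ u x - 1) (hu.sub contDiff_const)
    (fun w hw ↦ by
      rw [hfd w]
      exact hreg w (Or.inr (by linarith)))
  have cD : ∀ f : E q → ℝ, ContDiff ℝ ∞ f → Continuous (fun w ↦ ‖fderiv ℝ f w‖) := by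
    intro f hf
    have : ContDiff ℝ ∞ (fderiv ℝ f) := hf.fderiv_right (by simp)
    exact this.continuous.norm
  have cDD : ∀ f : E q → ℝ, ContDiff ℝ ∞ f →
      Continuous (fun w ↦ ‖fderiv ℝ (fderiv ℝ f) w‖) := by
    intro f hf
    have h1 : ContDiff ℝ ∞ (fderiv ℝ f) := hf.fderiv_right (by simp)
    have h2 : ContDiff ℝ ∞ (fderiv ℝ (fderiv ℝ f)) := h1.fderiv_right (by simp)
    exact (continuous_norm (E := E q →L[ℝ] E q →L[ℝ] ℝ)).comp h2.continuous
  -- the bound H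
  have hsum : Continuous (fun w ↦ ‖fderiv ℝ b0 w‖ + ‖fderiv ℝ b1 w‖ + ‖fderiv ℝ u w‖ +
      ‖fderiv ℝ (fderiv ℝ b0) w‖ + ‖fderiv ℝ (fderiv ℝ b1) w‖ + ‖fderiv ℝ (fderiv ℝ u) w‖ +
      N0 w) :=
    ((((((cD b0 hb0).add (cD b1 hb1)).add (cD u hu)).add (cDD b0 hb0)).add (cDD b1 hb1)).add
      (cDD u hu)).add hN0.continuous
  obtain ⟨C, hC⟩ := hK.exists_bound_of_continuousOn hsum.continuousOn
  set H : ℝ := max 1 C with hH
  have hH1 : 1 ≤ H := le_max_left _ _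
  have hHb : ∀ w, 0 ≤ u w → ‖fderiv ℝ b0 w‖ ≤ H ∧ ‖fderiv ℝ b1 w‖ ≤ H ∧ ‖fderiv ℝ u w‖ ≤ H ∧
      ‖fderiv ℝ (fderiv ℝ b0) w‖ ≤ H ∧ ‖fderiv ℝ (fderiv ℝ b1) w‖ ≤ H ∧
      ‖fderiv ℝ (fderiv ℝ u) w‖ ≤ H ∧ N0 w ≤ H := by
    intro w hw
    have h1 := hC w hw
    rw [Real.norm_eq_abs] at h1
    have h2 := (le_abs_self _).trans (h1.trans (le_max_right 1 C))
    rw [← hH] at h2
    have a1 := norm_nonneg (fderiv ℝ b0 w)
    have a2 := norm_nonneg (fderiv ℝ b1 w)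
    have a3 := norm_nonneg (fderiv ℝ u w)
    have a4 : 0 ≤ ‖fderiv ℝ (fderiv ℝ b0) w‖ := norm_nonneg (E := E q →L[ℝ] E q →L[ℝ] ℝ) _
    have a5 : 0 ≤ ‖fderiv ℝ (fderiv ℝ b1) w‖ := norm_nonneg (E := E q →L[ℝ] E q →L[ℝ] ℝ) _
    have a6 : 0 ≤ ‖fderiv ℝ (fderiv ℝ u) w‖ := norm_nonneg (E := E q →L[ℝ] E q →L[ℝ] ℝ) _
    have a7 := hN0p w
    refine ⟨?_, ?_, ?_, ?_, ?_, ?_, ?_⟩ <;> linarith
  have hb0n : ∀ w, 0 ≤ u w → 0 ≤ b0 w := by
    intro w hw
    rw [← hbn0 w] at hw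
    exact nonneg_of_mul_nonneg_left hw (hN0p w)
  -- the number d
  obtain ⟨d1, hd1, hd1'⟩ := near {x | 0 ≤ u x} hK b0 (fun w ↦ ‖fderiv ℝ b0 w‖ ^ 2)
    hb0.continuous ((cD b0 hb0).pow 2) (fun w hw ↦ hb0n w hw) (fun w _ h0 ↦ by
      have h1 : u w = 0 := by rw [← hbn0 w, h0, zero_mul]
      show ‖fderiv ℝ b0 w‖ ^ 2 = 1
      rw [hz0 w h1]
      norm_num)
  obtain ⟨d2, hd2, hd2'⟩ := near {x | 0 ≤ u x} hK (fun w ↦ |b1 w|)
    (fun w ↦ ‖fderiv ℝ b1 w‖ ^ 2)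
    hb1.continuous.abs ((cD b1 hb1).pow 2) (fun w _ ↦ abs_nonneg _) (fun w _ h0 ↦ by
      have h1 : u w - 1 = 0 := by
        have h2 : b1 w = 0 := abs_eq_zero.1 h0
        rw [← hbn1 w, h2, zero_mul]
      show ‖fderiv ℝ b1 w‖ ^ 2 = 1
      rw [hz1 w h1]
      norm_num)
  obtain ⟨d3, hd3, hd3'⟩ := pmin {x | 0 ≤ u x} hK (fun w ↦ max (b0 w) (-(b1 w)))
    (hb0.continuous.max hb1.continuous.neg) (fun w hw ↦ by
      rcases lt_or_eq_of_le (hb0n w hw) with h | h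
      · exact lt_of_lt_of_le h (le_max_left _ _)
      · have h1 : u w = 0 := by rw [← hbn0 w, ← h, zero_mul]
        have h2 := hbn1 w
        simp only [h1] at h2
        have h3 : b1 w < 0 := by
          by_contra hcon
          have := mul_nonneg (not_lt.1 hcon) (hN1p w).le
          linarith
        exact lt_of_lt_of_le (by linarith) (le_max_right _ _))
  set d : ℝ := min d1 (min d2 d3) with hd
  have hd0 : 0 < d := lt_min hd1 (lt_min hd2 hd3)
  have hdd1 : d ≤ d1 := min_le_left _ _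
  have hdd2 : d ≤ d2 := (min_le_right _ _).trans (min_le_left _ _)
  have hdd3 : d ≤ d3 := (min_le_right _ _).trans (min_le_right _ _)
  -- the number l
  set A : ℝ := 10 ^ 5 * H ^ 2 with hA
  have hA0 : 0 < A := by positivity
  set l : ℝ := 10 ^ 5 * H ^ 3 + 1 + 2 * A / (23 / 2 * d) with hl
  have hl2 : 0 < 2 * A / (23 / 2 * d) := by positivity
  have hH3 : 0 < H ^ 3 := by positivity
  have hl0 : 0 < l := by rw [hl]; positivity
  have hlA : A * H ≤ l := by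
    have : A * H = 10 ^ 5 * H ^ 3 := by rw [hA]; ring
    rw [this, hl]
    linarith
  have hlA' : A ≤ l := by
    have : A * 1 ≤ A * H := mul_le_mul_of_nonneg_left hH1 hA0.le
    linarith
  have hld : 2 * A ≤ 23 / 2 * (l * d) := by
    have h1 : 2 * A / (23 / 2 * d) ≤ l := by rw [hl]; linarith
    rw [div_le_iff₀ (by positivity)] at h1
    linarith
  refine ⟨b0, b1, N0, N1, l, H, hb0, hb1, hN0, hN1, hN0p, hN1p, hbn0, fun x ↦ hbn1 x, hH1, hlA',
    ?_⟩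
  intro x hx
  obtain ⟨h1, h2, h3, h4, h5, h6, h7⟩ := hHb x hx
  have hbx := hb0n x hx
  refine ⟨⟨hbx, h1, h2, h3, h4, h5, h6⟩, ?_, ?_⟩
  · rw [← hA, ← hbn0 x]
    have ht := texp (23 / 2 * (l * b0 x))
    have hE : 0 < EE0 l (b0 x) := exp_pos _
    have hE' : 23 / 2 * (l * b0 x) * EE0 l (b0 x) ≤ 1 := ht
    have hbE : 0 ≤ b0 x * EE0 l (b0 x) := mul_nonneg hbx hE.le
    calc A * (b0 x * N0 x * EE0 l (b0 x)) = A * N0 x * (b0 x * EE0 l (b0 x)) := by ring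
      _ ≤ A * H * (b0 x * EE0 l (b0 x)) := by
          apply mul_le_mul_of_nonneg_right _ hbE
          exact mul_le_mul_of_nonneg_left h7 hA0.le
      _ ≤ l * (b0 x * EE0 l (b0 x)) := mul_le_mul_of_nonneg_right hlA hbE
      _ ≤ 1 := by
          have : 0 ≤ l * (b0 x * EE0 l (b0 x)) := mul_nonneg hl0.le hbE
          linarith
  · rw [← hA]
    rcases le_or_gt (b0 x) d with hle | hgt
    · left
      obtain ⟨c1, c2⟩ := hd1' x hx (hle.trans hdd1)
      refine ⟨c1, c2, ?_⟩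
      have h8 := hd3' x hx
      have h9 : d < max (b0 x) (-(b1 x)) := lt_of_le_of_lt hdd3 h8
      rcases lt_max_iff.1 h9 with h | h
      · linarith
      · exact eF A l d (b1 x) hA0.le hl0 hd0 hld (by linarith)
    · have hE0 : A * EE0 l (b0 x) ≤ 1 := eE A l d (b0 x) hl0 hld hgt.le
      right
      rcases le_or_gt (|b1 x|) d with hle | hgt1
      · left
        obtain ⟨c1, c2⟩ := hd2' x hx (hle.trans hdd2)
        exact ⟨c1, c2, hE0⟩
      · right
        refine ⟨hE0, ?_⟩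
        rcases lt_abs.1 hgt1 with h | h
        · right
          exact eG A l d (b1 x) hA0.le hl0 hd0 hld h.le
        · left
          exact eF A l d (b1 x) hA0.le hl0 hd0 hld (by linarith)

end Pool.Agent.Helper14.BD.PRC
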